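import Mathlib

/-!
# Polynomials of hypercyclic operators have dense range
-/

namespace Pool.Agent.V1167.DL

open Polynomial

/-- There are no hypercyclic operators on finite-dimensional spaces. -/
theorem no_hc_finite {𝕂 : Type*} [RCLike 𝕂] {Z : Type*} [AddCommGroup Z] [Module 𝕂 Z]
    [TopologicalSpace Z] [IsTopologicalAddGroup Z] [ContinuousSMul 𝕂 Z] [T2Space Z]
    [FiniteDimensional 𝕂 Z] [Nontrivial Z] (T : Z →ₗ[𝕂] Z) (z : Z)
    (hz : Dense (Set.range fun n : ℕ => (T ^ n) z)) : False := by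
  obtain ⟨ev, hev⟩ : ∃ ev : 𝕂[X] →ₗ[𝕂] Z, ∀ p, ev p = aeval T p z :=
    ⟨(LinearMap.applyₗ z) ∘ₗ (aeval T).toLinearMap, fun p => rfl⟩
  have hsurj : Function.Surjective ev := by
    rw [← LinearMap.range_eq_top]
    have h1 : IsClosed (LinearMap.range ev : Set Z) := Submodule.closed_of_finiteDimensional _
    have h2 : Dense (LinearMap.range ev : Set Z) := by
      refine hz.mono ?_
      rintro _ ⟨n, rfl⟩
      exact ⟨X ^ n, by rw [hev]; simp⟩
    rw [Submodule.eq_top_iff']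
    intro v
    have h3 := h2 v
    rwa [h1.closure_eq] at h3
  have hker : ∀ p, ev p = 0 → aeval T p = 0 := by
    intro p hp
    apply LinearMap.ext
    intro v
    obtain ⟨q, rfl⟩ := hsurj v
    rw [hev, ← Module.End.mul_apply, ← map_mul, mul_comm, map_mul, Module.End.mul_apply, ← hev p,
      hp, map_zero]
    rfl
  obtain ⟨s, hs⟩ := ev.exists_rightInverse_of_surjective (LinearMap.range_eq_top.2 hsurj)
  obtain ⟨Φ, hΦ⟩ : ∃ Φ : Z →ₗ[𝕂] (Z →ₗ[𝕂] Z), ∀ p, Φ (ev p) = aeval T p := by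
    refine ⟨(aeval T).toLinearMap ∘ₗ s, fun p => ?_⟩
    have h1 : ev (s (ev p) - p) = 0 := by
      rw [map_sub, sub_eq_zero]
      exact congrArg (fun f => f (ev p)) hs
    have h2 := hker _ h1
    rw [map_sub, sub_eq_zero] at h2
    exact h2
  have hΦn : ∀ n : ℕ, Φ ((T ^ n) z) = T ^ n := by
    intro n
    have h1 := hΦ (X ^ n)
    rw [hev] at h1
    simpa using h1
  have hΦz : ∀ α : 𝕂, Φ (α • z) = α • (1 : Z →ₗ[𝕂] Z) := by
    intro α
    rw [map_smul]
    have h1 := hΦn 0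
    rw [pow_zero] at h1
    have h2 : Φ z = 1 := h1
    rw [h2]
  obtain ⟨f, hf, hfc⟩ : ∃ f : Z → ℝ, (∀ v, f v = ‖LinearMap.det (Φ v)‖) ∧ Continuous f := by
    refine ⟨fun v => ‖LinearMap.det (Φ v)‖, fun v => rfl, ?_⟩
    obtain ⟨b⟩ : Nonempty (Module.Basis (Fin (Module.finrank 𝕂 Z)) 𝕂 Z) :=
      ⟨Module.finBasis 𝕂 Z⟩
    have h1 : ∀ v, LinearMap.det (Φ v) =
        (((LinearMap.toMatrix b b).toLinearMap ∘ₗ Φ) v).det := by
      intro v
      rw [← LinearMap.det_toMatrix b]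
      rfl
    simp only [h1]
    have h2 : Continuous ((LinearMap.toMatrix b b).toLinearMap ∘ₗ Φ) :=
      LinearMap.continuous_of_finiteDimensional _
    exact (Continuous.matrix_det h2).norm
  have hd : Module.finrank 𝕂 Z ≠ 0 := Module.finrank_pos.ne'
  have hfn : ∀ n : ℕ, f ((T ^ n) z) = ‖LinearMap.det T‖ ^ n := by
    intro n
    rw [hf, hΦn, map_pow, norm_pow]
  have hfz : ∀ α : 𝕂, f (α • z) = ‖α‖ ^ Module.finrank 𝕂 Z := by
    intro α
    rw [hf, hΦz, LinearMap.det_smul, map_one, mul_one, norm_pow]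
  rcases le_total ‖LinearMap.det T‖ 1 with ha | ha
  · have h1 : IsClosed {v | f v ≤ 1} := isClosed_le hfc continuous_const
    have h2 : (2 : 𝕂) • z ∈ {v | f v ≤ 1} := by
      refine closure_minimal ?_ h1 (hz _)
      rintro _ ⟨n, rfl⟩
      change f ((T ^ n) z) ≤ 1
      rw [hfn]
      exact pow_le_one₀ (norm_nonneg _) ha
    have h3 : f ((2 : 𝕂) • z) ≤ 1 := h2
    rw [hfz, RCLike.norm_two] at h3
    have h4 := one_lt_pow₀ (one_lt_two (α := ℝ)) hd
    linarith
  · have h1 : IsClosed {v | 1 ≤ f v} := isClosed_le continuous_const hfc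
    have h2 : (0 : 𝕂) • z ∈ {v | 1 ≤ f v} := by
      refine closure_minimal ?_ h1 (hz _)
      rintro _ ⟨n, rfl⟩
      change 1 ≤ f ((T ^ n) z)
      rw [hfn]
      exact one_le_pow₀ ha
    have h3 : 1 ≤ f ((0 : 𝕂) • z) := h2
    rw [hfz, norm_zero, zero_pow hd] at h3
    linarith

variable {𝕂 : Type*} [RCLike 𝕂] {E : Type*} [AddCommGroup E] [Module 𝕂 E]
    [TopologicalSpace E] [IsTopologicalAddGroup E] [ContinuousSMul 𝕂 E]

/-- Nonzero polynomials in a hypercyclic operator have dense range. -/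
theorem dense_range_aeval (T : E →L[𝕂] E) (x : E)
    (hx : Dense (Set.range fun n : ℕ => (T ^ n) x)) (p : 𝕂[X]) (hp : p ≠ 0) :
    DenseRange (aeval T p : E →L[𝕂] E) := by
  obtain ⟨R, hR⟩ : ∃ R : Submodule 𝕂 E, R = LinearMap.range (aeval T p : E →L[𝕂] E).toLinearMap :=
    ⟨_, rfl⟩
  obtain ⟨L, hL⟩ : ∃ L : Submodule 𝕂 E, L = R.topologicalClosure := ⟨_, rfl⟩
  by_cases htop : L = ⊤
  · intro v
    have h1 : v ∈ L := htop ▸ Submodule.mem_top
    rw [hL, ← SetLike.mem_coe, Submodule.topologicalClosure_coe, hR] at h1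
    exact h1
  exfalso
  have hLc : IsClosed (L : Set E) := by
    rw [hL]
    exact Submodule.isClosed_topologicalClosure _
  have hTL : L ≤ L.comap (T : E →ₗ[𝕂] E) := by
    have h1 : R ≤ R.comap (T : E →ₗ[𝕂] E) := by
      rw [hR]
      rintro _ ⟨v, rfl⟩
      refine ⟨T v, ?_⟩
      have h2 : aeval T p * T = T * aeval T p := by
        rw [show aeval T p * T = aeval T (p * X) by simp, mul_comm]
        simp
      exact congrArg (fun f : E →L[𝕂] E => f v) h2
    rw [hL]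
    intro v hv
    rw [← SetLike.mem_coe, Submodule.topologicalClosure_coe] at hv
    rw [Submodule.mem_comap, ← SetLike.mem_coe, Submodule.topologicalClosure_coe]
    exact map_mem_closure T.continuous hv fun w hw => h1 hw
  have : IsClosed (L : Set E) := hLc
  have hnt : Nontrivial (E ⧸ L) := Submodule.Quotient.nontrivial_iff.2 htop
  obtain ⟨TZ, hTZ⟩ : ∃ TZ : (E ⧸ L) →ₗ[𝕂] (E ⧸ L), ∀ v, TZ (L.mkQ v) = L.mkQ (T v) :=
    ⟨L.mapQ L (T : E →ₗ[𝕂] E) hTL, fun v => rfl⟩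
  have hTZn : ∀ (n : ℕ) (v : E), (TZ ^ n) (L.mkQ v) = L.mkQ ((T ^ n) v) := by
    intro n
    induction n with
    | zero => intro v; rfl
    | succ n ih =>
      intro v
      rw [pow_succ, Module.End.mul_apply, hTZ, ih, pow_succ]
      rfl
  have hTZp : ∀ (q : 𝕂[X]) (v : E), (aeval TZ q) (L.mkQ v) = L.mkQ ((aeval T q) v) := by
    intro q v
    rw [aeval_eq_sum_range, aeval_eq_sum_range, LinearMap.sum_apply]
    have h1 : (∑ i ∈ Finset.range (q.natDegree + 1), q.coeff i • T ^ i) v =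
        ∑ i ∈ Finset.range (q.natDegree + 1), q.coeff i • (T ^ i) v := by
      rw [_root_.sum_apply]
      rfl
    rw [h1, map_sum]
    refine Finset.sum_congr rfl fun i _ => ?_
    rw [map_smul, ← hTZn]
    rfl
  have hp0 : aeval TZ p = 0 := by
    apply LinearMap.ext
    intro w
    obtain ⟨v, rfl⟩ := L.mkQ_surjective w
    rw [hTZp, LinearMap.zero_apply, Submodule.mkQ_apply, Submodule.Quotient.mk_eq_zero, hL]
    exact R.le_topologicalClosure (by rw [hR]; exact ⟨v, rfl⟩)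
  have hdense : Dense (Set.range fun n : ℕ => (TZ ^ n) (L.mkQ x)) := by
    have h1 : Dense (L.mkQ '' (Set.range fun n : ℕ => (T ^ n) x)) :=
      (L.mkQ_surjective.denseRange).dense_image L.continuous_mkQ hx
    refine h1.mono ?_
    rintro _ ⟨_, ⟨n, rfl⟩, rfl⟩
    exact ⟨n, hTZn n x⟩
  -- finite dimension
  obtain ⟨ev, hev⟩ : ∃ ev : 𝕂[X] →ₗ[𝕂] (E ⧸ L), ∀ q, ev q = aeval TZ q (L.mkQ x) :=
    ⟨(LinearMap.applyₗ (L.mkQ x)) ∘ₗ (aeval TZ).toLinearMap, fun p => rfl⟩
  obtain ⟨W, hW⟩ : ∃ W : Submodule 𝕂 (E ⧸ L), W = (degreeLT 𝕂 p.natDegree).map ev := ⟨_, rfl⟩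
  have hWf : FiniteDimensional 𝕂 W := by
    have h1 : FiniteDimensional 𝕂 (degreeLT 𝕂 p.natDegree) :=
      LinearEquiv.finiteDimensional (degreeLTEquiv 𝕂 p.natDegree).symm
    rw [hW]
    infer_instance
  have hWc : IsClosed (W : Set (E ⧸ L)) := Submodule.closed_of_finiteDimensional _
  have hWtop : W = ⊤ := by
    rw [Submodule.eq_top_iff']
    intro v
    suffices h3 : Dense (W : Set (E ⧸ L)) by
      have h4 := h3 v
      rwa [hWc.closure_eq] at h4
    refine hdense.mono ?_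
    rintro _ ⟨n, rfl⟩
    rw [SetLike.mem_coe, hW]
    refine ⟨X ^ n % p, ?_, ?_⟩
    · rw [SetLike.mem_coe, mem_degreeLT, ← degree_eq_natDegree hp]
      exact EuclideanDomain.mod_lt _ hp
    · rw [hev]
      have h1 : aeval TZ (X ^ n : 𝕂[X]) = aeval TZ (X ^ n % p) := by
        conv_lhs => rw [← EuclideanDomain.div_add_mod (X ^ n : 𝕂[X]) p]
        rw [map_add, map_mul, hp0, zero_mul, zero_add]
      rw [← h1]
      simp
  have hfin : FiniteDimensional 𝕂 (E ⧸ L) := by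
    rw [hWtop] at hWf
    exact LinearEquiv.finiteDimensional (Submodule.topEquiv (R := 𝕂) (M := E ⧸ L))
  exact no_hc_finite TZ (L.mkQ x) hdense

/-- Nonzero polynomials of a hypercyclic operator map hypercyclic vectors to such vectors. -/
theorem hc_aeval (T : E →L[𝕂] E) (x : E)
    (hx : Dense (Set.range fun n : ℕ => (T ^ n) x)) (p : 𝕂[X]) (hp : p ≠ 0) :
    Dense (Set.range fun n : ℕ => (aeval T p : E →L[𝕂] E) ((T ^ n) x)) := by
  have h1 := (dense_range_aeval T x hx p hp).dense_image (aeval T p : E →L[𝕂] E).continuous hx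
  refine h1.mono ?_
  rintro _ ⟨_, ⟨n, rfl⟩, rfl⟩
  exact ⟨n, rfl⟩

end Pool.Agent.V1167.DL
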