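import Mathlib
import Pool.Agent.V1167.DL.Poly

/-!
# The choice of the coefficients
-/

namespace Pool.Agent.V1167.DL

open Polynomial Topology Pointwise

variable {𝕂 : Type*} [RCLike 𝕂] {E : Type*} [AddCommGroup E] [Module 𝕂 E]
    [TopologicalSpace E] [IsTopologicalAddGroup E] [ContinuousSMul 𝕂 E]

/-- One stage: bounded coefficients, not all small. -/
theorem stage (T : E →L[𝕂] E) (x : E) (hx : Dense (Set.range fun n : ℕ => (T ^ n) x)) (k : ℕ)
    (a : ℕ → ℝ) (ha : ∀ n, 0 < a n) (z : E) {V : Set E} (hV : V ∈ 𝓝 (0 : E)) :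
    ∃ B : ℕ, ∀ c : Fin (k + 1) → 𝕂, 1 / ((k : ℝ) + 1) ≤ ‖c‖ → ‖c‖ ≤ k + 1 →
      ∃ m ≤ B, (∑ i, (c i * (a i : 𝕂)) • (T ^ ((i : ℕ) + m)) x) - z ∈ V := by
  obtain ⟨K, hK⟩ : ∃ K : Set (Fin (k + 1) → 𝕂), K = {c | 1 / ((k : ℝ) + 1) ≤ ‖c‖ ∧ ‖c‖ ≤ k + 1} :=
    ⟨_, rfl⟩
  have hKc : IsCompact K := by
    refine Metric.isCompact_of_isClosed_isBounded ?_ ?_
    · rw [hK]
      exact (isClosed_le continuous_const continuous_norm).inter
        (isClosed_le continuous_norm continuous_const)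
    · rw [isBounded_iff_forall_norm_le]
      exact ⟨k + 1, fun c hc => by rw [hK] at hc; exact hc.2⟩
  obtain ⟨F, hF⟩ : ∃ F : ℕ → (Fin (k + 1) → 𝕂) → E,
      F = fun m c => (∑ i : Fin (k + 1), (c i * (a i : 𝕂)) • (T ^ ((i : ℕ) + m)) x) - z :=
    ⟨_, rfl⟩
  have hFc : ∀ m, Continuous (F m) := by
    intro m
    rw [hF]
    fun_prop
  have hopen : ∀ m, IsOpen (F m ⁻¹' interior V) := fun m => isOpen_interior.preimage (hFc m)
  have hcov : K ⊆ ⋃ m, F m ⁻¹' interior V := by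
    intro c hc
    rw [hK] at hc
    obtain ⟨p, hp⟩ : ∃ p : 𝕂[X], p = ∑ i : Fin (k + 1), C (c i * (a i : 𝕂)) * X ^ (i : ℕ) :=
      ⟨_, rfl⟩
    have hpc : ∀ j : Fin (k + 1), p.coeff j = c j * (a j : 𝕂) := by
      intro j
      rw [hp, finsetSum_coeff]
      simp only [coeff_C_mul_X_pow]
      rw [Finset.sum_eq_single j]
      · simp
      · intro i _ hij
        rw [if_neg]
        intro h
        exact hij (Fin.ext h.symm)
      · simp
    have hp0 : p ≠ 0 := by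
      intro h0
      have h1 : c = 0 := by
        funext j
        have h2 := hpc j
        rw [h0, coeff_zero, eq_comm, mul_eq_zero] at h2
        rcases h2 with h2 | h2
        · exact h2
        · exact absurd h2 (by
            rw [RCLike.ofReal_eq_zero]
            exact (ha j).ne')
      rw [h1] at hc
      have h3 := hc.1
      rw [norm_zero] at h3
      have : (0 : ℝ) < 1 / ((k : ℝ) + 1) := by positivity
      linarith
    have h4 := hc_aeval T x hx p hp0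
    have h5 : (fun w => w - z) ⁻¹' interior V ∈ 𝓝 z := by
      have h6 : Continuous fun w : E => w - z := by fun_prop
      refine h6.continuousAt.preimage_mem_nhds ?_
      rw [sub_self]
      exact interior_mem_nhds.2 hV
    obtain ⟨w, ⟨m, hm⟩, hw⟩ := h4.inter_nhds_nonempty h5
    refine Set.mem_iUnion.2 ⟨m, ?_⟩
    have h7 : F m c = w - z := by
      rw [← hm, hF]
      simp only
      congr 1
      rw [hp, map_sum, _root_.sum_apply]
      refine Finset.sum_congr rfl fun i _ => ?_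
      rw [map_mul, aeval_C, map_pow, aeval_X, pow_add]
      change (c i * (a i : 𝕂)) • ((T ^ (i : ℕ)) ((T ^ m) x)) =
        (algebraMap 𝕂 (E →L[𝕂] E) (c i * (a i : 𝕂))) ((T ^ (i : ℕ)) ((T ^ m) x))
      rw [Algebra.algebraMap_eq_smul_one]
      rfl
    rw [Set.mem_preimage, h7]
    exact hw
  obtain ⟨t, ht⟩ := hKc.elim_finite_subcover _ hopen hcov
  refine ⟨t.sup id, fun c h1 h2 => ?_⟩
  have hcK : c ∈ K := by rw [hK]; exact ⟨h1, h2⟩
  obtain ⟨m, hm⟩ := Set.mem_iUnion.1 (ht hcK)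
  obtain ⟨hmt, hm⟩ := Set.mem_iUnion.1 hm
  refine ⟨m, Finset.le_sup (f := id) hmt, ?_⟩
  have := interior_subset hm
  rw [hF] at this
  exact this

/-- Smallness. -/
theorem small (v : ℕ → E) (B : ℕ) (C : ℝ) {V : Set E} (hV : V ∈ 𝓝 (0 : E)) :
    ∃ r : ℝ, 0 < r ∧ ∀ m ≤ B, ∀ c : 𝕂, ‖c‖ ≤ C → (c * (r : 𝕂)) • v m ∈ V := by
  have h1 : ∀ m, ∃ δ : ℝ, 0 < δ ∧ ∀ s : 𝕂, ‖s‖ < δ → s • v m ∈ V := by
    intro m
    have h2 : Continuous fun s : 𝕂 => s • v m := by fun_prop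
    have h3 : (fun s : 𝕂 => s • v m) ⁻¹' V ∈ 𝓝 (0 : 𝕂) := by
      refine h2.continuousAt.preimage_mem_nhds ?_
      rw [zero_smul]
      exact hV
    obtain ⟨δ, hδ, h4⟩ := Metric.mem_nhds_iff.1 h3
    exact ⟨δ, hδ, fun s hs => h4 (by rwa [mem_ball_zero_iff])⟩
  choose δ hδ hδ2 using h1
  obtain ⟨ε, hε, hε2⟩ : ∃ ε : ℝ, 0 < ε ∧ ∀ m ≤ B, ε ≤ δ m := by
    refine ⟨(Finset.range (B + 1)).inf' ⟨0, by simp⟩ δ, ?_, fun m hm => ?_⟩
    · rw [Finset.lt_inf'_iff]
      exact fun m _ => hδ m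
    · exact Finset.inf'_le _ (by simpa [Nat.lt_succ_iff] using hm)
  refine ⟨ε / (|C| + 1), by positivity, fun m hm c hc => hδ2 m _ ?_⟩
  have h5 : 0 < |C| + 1 := by positivity
  rw [norm_mul, RCLike.norm_ofReal, abs_of_pos (by positivity)]
  calc ‖c‖ * (ε / (|C| + 1)) ≤ |C| * (ε / (|C| + 1)) := by
        gcongr
        exact hc.trans (le_abs_self C)
    _ < (|C| + 1) * (ε / (|C| + 1)) := by
        have : 0 < ε / (|C| + 1) := by positivity
        nlinarith
    _ = ε := by field_simp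
    _ ≤ δ m := hε2 m hm

/-- The sequence of coefficients. -/
theorem exists_coeff (T : E →L[𝕂] E) (x : E) (hx : Dense (Set.range fun n : ℕ => (T ^ n) x))
    (z : ℕ → E) (u : ℕ → Set E) (hu : ∀ n, u n ∈ 𝓝 (0 : E)) :
    ∃ (a : ℕ → ℝ) (B : ℕ → ℕ), (∀ n, 0 < a n) ∧ Monotone B ∧
      (∀ k, ∀ m ≤ B k, ∀ c : 𝕂, ‖c‖ ≤ k + 1 →
        (c * (a (k + 1) : 𝕂)) • (T ^ (k + 1 + m)) x ∈ u (k + 1)) ∧
      (∀ k, ∀ c : Fin (k + 1) → 𝕂, 1 / ((k : ℝ) + 1) ≤ ‖c‖ → ‖c‖ ≤ k + 1 →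
        ∃ m ≤ B k, (∑ i, (c i * (a i : 𝕂)) • (T ^ ((i : ℕ) + m)) x) - z k ∈ u k) := by
  classical
  have hst : ∀ (k : ℕ) (a : ℕ → ℝ), ∃ B : ℕ, (∀ n, 0 < a n) →
      ∀ c : Fin (k + 1) → 𝕂, 1 / ((k : ℝ) + 1) ≤ ‖c‖ → ‖c‖ ≤ k + 1 →
      ∃ m ≤ B, (∑ i, (c i * (a i : 𝕂)) • (T ^ ((i : ℕ) + m)) x) - z k ∈ u k := by
    intro k a
    by_cases ha : ∀ n, 0 < a n
    · obtain ⟨B, hB⟩ := stage T x hx k a ha (z k) (hu k)
      exact ⟨B, fun _ => hB⟩
    · exact ⟨0, fun h => absurd h ha⟩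
  choose Bd hBd using hst
  have hsm : ∀ (k B : ℕ), ∃ r : ℝ, 0 < r ∧ ∀ m ≤ B, ∀ c : 𝕂, ‖c‖ ≤ (k : ℝ) + 1 →
      (c * (r : 𝕂)) • (T ^ (k + 1 + m)) x ∈ u (k + 1) := fun k B =>
    small (fun m => (T ^ (k + 1 + m)) x) B ((k : ℝ) + 1) (hu (k + 1))
  choose r hr hr2 using hsm
  obtain ⟨s, hs0, hs⟩ : ∃ s : ℕ → (ℕ → ℝ) × ℕ, s 0 = (fun _ => 1, Bd 0 fun _ => 1) ∧
      ∀ k, s (k + 1) = (Function.update (s k).1 (k + 1) (r k (s k).2),
        max (s k).2 (Bd (k + 1) (Function.update (s k).1 (k + 1) (r k (s k).2)))) :=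
    ⟨fun n => Nat.rec (fun _ => 1, Bd 0 fun _ => 1)
      (fun k s => (Function.update s.1 (k + 1) (r k s.2),
        max s.2 (Bd (k + 1) (Function.update s.1 (k + 1) (r k s.2))))) n, rfl, fun k => rfl⟩
  have hpos : ∀ k n, 0 < (s k).1 n := by
    intro k
    induction k with
    | zero => intro n; rw [hs0]; exact one_pos
    | succ k ih =>
      intro n
      rw [hs]
      by_cases hn : n = k + 1
      · rw [hn]
        simp only [Function.update_self]
        exact hr _ _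
      · simp only [Function.update_of_ne hn]
        exact ih n
  have hstep : ∀ k n, n ≤ k → (s (k + 1)).1 n = (s k).1 n := by
    intro k n hn
    rw [hs]
    simp only
    rw [Function.update_of_ne (by omega)]
  have hstab : ∀ k n, n ≤ k → (s k).1 n = (s n).1 n := by
    intro k n hn
    obtain ⟨j, rfl⟩ := Nat.exists_eq_add_of_le hn
    clear hn
    induction j with
    | zero => rfl
    | succ j ih => rw [← ih, ← add_assoc, hstep _ _ (by omega)]
  refine ⟨fun n => (s n).1 n, fun n => (s n).2, fun n => hpos n n, ?_, ?_, ?_⟩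
  · refine monotone_nat_of_le_succ fun n => ?_
    rw [hs]
    exact le_max_left _ _
  · intro k m hm c hc
    have h1 : (s (k + 1)).1 (k + 1) = r k (s k).2 := by
      rw [hs]
      simp only [Function.update_self]
    simp only [h1]
    exact hr2 k (s k).2 m hm c hc
  · intro k c h1 h2
    have h3 : Bd k (s k).1 ≤ (s k).2 := by
      cases k with
      | zero => rw [hs0]
      | succ k =>
        have h4 : (s (k + 1)).1 = Function.update (s k).1 (k + 1) (r k (s k).2) := by rw [hs]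
        rw [h4, hs]
        exact le_max_right _ _
    obtain ⟨m, hm, h5⟩ := hBd k (s k).1 (hpos k) c h1 h2
    refine ⟨m, hm.trans h3, ?_⟩
    have h6 : (∑ i : Fin (k + 1), (c i * (((s k).1 i : ℝ) : 𝕂)) • (T ^ ((i : ℕ) + m)) x) =
        ∑ i : Fin (k + 1), (c i * (((s i).1 i : ℝ) : 𝕂)) • (T ^ ((i : ℕ) + m)) x := by
      refine Finset.sum_congr rfl fun i _ => ?_
      rw [hstab k i (by omega)]
    rw [← h6]
    exact h5

/-- Finite sums of terms in a basis of neighbourhoods. -/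
theorem sum_mem (u : ℕ → Set E) (hu : ∀ n, u n ∈ 𝓝 (0 : E))
    (hadd : ∀ n, u (n + 1) + u (n + 1) ⊆ u n) (t : ℕ → E) (N : ℕ)
    (ht : ∀ n, N < n → t n ∈ u n) (F : Finset ℕ) (hF : ∀ n ∈ F, N < n) :
    ∑ n ∈ F, t n ∈ u N := by
  classical
  have key : ∀ j N : ℕ, (∀ n, N < n → t n ∈ u n) → ∀ F : Finset ℕ, (∀ n ∈ F, N < n) →
      (∀ n ∈ F, n ≤ N + j) → ∑ n ∈ F, t n ∈ u N := by
    intro j
    induction j with
    | zero =>
      intro N _ F h1 h2
      have h3 : F = ∅ := by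
        rw [Finset.eq_empty_iff_forall_notMem]
        intro n hn
        have := h1 n hn
        have := h2 n hn
        omega
      rw [h3, Finset.sum_empty]
      exact mem_of_mem_nhds (hu N)
    | succ j ih =>
      intro N h0 F h1 h2
      have h4 : ∑ n ∈ F.erase (N + 1), t n ∈ u (N + 1) := by
        refine ih (N + 1) (fun n hn => h0 n (by omega)) _ (fun n hn => ?_) (fun n hn => ?_)
        · have h5 := Finset.mem_erase.1 hn
          have := h1 n h5.2
          omega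
        · have h5 := Finset.mem_erase.1 hn
          have := h2 n h5.2
          omega
      by_cases hN : N + 1 ∈ F
      · rw [← Finset.add_sum_erase F t hN]
        exact hadd N (Set.add_mem_add (h0 (N + 1) (by omega)) h4)
      · rw [Finset.erase_eq_of_notMem hN] at h4
        have h6 := hadd N (Set.add_mem_add (mem_of_mem_nhds (hu (N + 1))) h4)
        rwa [zero_add] at h6
  refine key (F.sup id) N ht F hF fun n hn => ?_
  have : n ≤ F.sup id := Finset.le_sup (f := id) hn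
  omega

end Pool.Agent.V1167.DL
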