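import Mathlib
import Pool.Agent.V1167.DL.Stage

/-!
# Maximal dense-lineability of the hypercyclic vectors
-/

namespace Pool.Agent.V1167.DL

open Polynomial Topology Pointwise Cardinal

/-- Separable metrizable spaces have at most the cardinality of the continuum. -/
theorem card_le (E : Type*) [TopologicalSpace E] [TopologicalSpace.MetrizableSpace E]
    [TopologicalSpace.SeparableSpace E] : #E ≤ 𝔠 := by
  let _ := TopologicalSpace.metrizableSpaceMetric E
  have : SecondCountableTopology E := UniformSpace.secondCountable_of_separable E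
  obtain ⟨b, hb, -, hbb⟩ := TopologicalSpace.exists_countable_basis E
  have hinj : Function.Injective fun x : E => {s : b | x ∈ (s : Set E)} := by
    intro x y hxy
    by_contra hne
    obtain ⟨U, hU, hxU, hyU⟩ : ∃ U : Set E, IsOpen U ∧ x ∈ U ∧ y ∉ U :=
      ⟨{y}ᶜ, isOpen_compl_singleton, hne, by simp⟩
    obtain ⟨V, hV, hxV, hVU⟩ := hbb.exists_subset_of_mem_open hxU hU
    have h1 : (⟨V, hV⟩ : b) ∈ {s : b | x ∈ (s : Set E)} := hxV
    have h2 : (⟨V, hV⟩ : b) ∈ {s : b | y ∈ (s : Set E)} := by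
      have h3 : {s : b | x ∈ (s : Set E)} = {s : b | y ∈ (s : Set E)} := hxy
      rw [← h3]
      exact h1
    exact hyU (hVU h2)
  refine (mk_le_of_injective hinj).trans ?_
  rw [mk_set]
  have h4 : #b ≤ ℵ₀ := mk_le_aleph0_iff.2 hb.to_subtype
  calc (2 : Cardinal) ^ #b ≤ 2 ^ ℵ₀ := power_le_power_left two_ne_zero h4
    _ = 𝔠 := two_power_aleph0

/-- The space of bounded sequences. -/
def Bdd (𝕂 : Type*) [RCLike 𝕂] : Submodule 𝕂 (ℕ → 𝕂) where
  carrier := {c | ∃ C : ℝ, ∀ n, ‖c n‖ ≤ C}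
  zero_mem' := ⟨0, fun n => by simp⟩
  add_mem' := by
    rintro a b ⟨C, hC⟩ ⟨D, hD⟩
    exact ⟨C + D, fun n => (norm_add_le _ _).trans (add_le_add (hC n) (hD n))⟩
  smul_mem' := by
    rintro c a ⟨C, hC⟩
    refine ⟨‖c‖ * C, fun n => ?_⟩
    rw [Pi.smul_apply, smul_eq_mul, norm_mul]
    gcongr
    exact hC n

/-- The dimension of the space of bounded sequences. -/
theorem rank_bdd (𝕂 : Type) [RCLike 𝕂] : 𝔠 ≤ Module.rank 𝕂 (Bdd 𝕂) := by
  have h1 := linearIndependent_monoidHom (Multiplicative ℕ) 𝕂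
  obtain ⟨g, hg⟩ : ∃ g : Set.Icc (0 : ℝ) 1 → (Multiplicative ℕ →* 𝕂),
      g = fun t : Set.Icc (0 : ℝ) 1 => powersHom 𝕂 (((t : ℝ) : 𝕂)) := ⟨_, rfl⟩
  have hginj : Function.Injective g := by
    intro s t hst
    rw [hg] at hst
    have h2 := congrArg (fun f : Multiplicative ℕ →* 𝕂 => f (Multiplicative.ofAdd 1)) hst
    simp only [powersHom_apply, toAdd_ofAdd, pow_one] at h2
    exact Subtype.ext (RCLike.ofReal_injective h2)
  have h2 := h1.comp g hginj
  have h3 : LinearIndependent 𝕂 fun t : Set.Icc (0 : ℝ) 1 =>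
      (⟨fun n : ℕ => ((t : ℝ) : 𝕂) ^ n, ⟨1, fun n => by
        rw [norm_pow, RCLike.norm_ofReal, abs_of_nonneg t.2.1]
        exact pow_le_one₀ t.2.1 t.2.2⟩⟩ : Bdd 𝕂) := by
    refine LinearIndependent.of_comp (Bdd 𝕂).subtype ?_
    refine LinearIndependent.of_comp
      (LinearMap.funLeft 𝕂 𝕂 (Multiplicative.toAdd : Multiplicative ℕ → ℕ)) ?_
    have h5 : (⇑(LinearMap.funLeft 𝕂 𝕂 (Multiplicative.toAdd : Multiplicative ℕ → ℕ)) ∘
        (⇑(Bdd 𝕂).subtype ∘ fun t : Set.Icc (0 : ℝ) 1 =>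
      (⟨fun n : ℕ => ((t : ℝ) : 𝕂) ^ n, ⟨1, fun n => by
        rw [norm_pow, RCLike.norm_ofReal, abs_of_nonneg t.2.1]
        exact pow_le_one₀ t.2.1 t.2.2⟩⟩ : Bdd 𝕂))) =
        (fun f : Multiplicative ℕ →* 𝕂 => (f : Multiplicative ℕ → 𝕂)) ∘ g := by
      funext t m
      rw [hg]
      rfl
    rw [h5]
    exact h2
  have h4 := h3.cardinal_le_rank
  rwa [Cardinal.mk_Icc_real (zero_lt_one)] at h4

section main

variable {𝕂 : Type} [RCLike 𝕂] {E : Type} [AddCommGroup E] [Module 𝕂 E] [UniformSpace E]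
  [IsUniformAddGroup E] [CompleteSpace E] [ContinuousSMul 𝕂 E]
  [TopologicalSpace.MetrizableSpace E]

/-- The construction. -/
theorem construct [Nontrivial E] (T : E →L[𝕂] E) (x : E)
    (hx : Dense (Set.range fun n : ℕ => (T ^ n) x)) :
    ∃ Ψ : Bdd 𝕂 →ₗ[𝕂] E, (∀ n : ℕ, (T ^ n) x ∈ LinearMap.range Ψ) ∧
      ∀ c, c ≠ 0 → Dense (Set.range fun n : ℕ => (T ^ n) (Ψ c)) := by
  classical
  obtain ⟨u, hub, hadd⟩ := IsTopologicalAddGroup.exists_antitone_basis_nhds_zero E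
  have hu : ∀ n, u n ∈ 𝓝 (0 : E) := fun n => hub.mem n
  have hanti : Antitone u := hub.antitone
  obtain ⟨z, hz⟩ : ∃ z : ℕ → E, z = fun k => (T ^ (Nat.unpair k).1) x := ⟨_, rfl⟩
  obtain ⟨a, B, ha, hB, hsmall, hhit⟩ := exists_coeff T x hx z u hu
  obtain ⟨t, ht⟩ : ∃ t : (ℕ → 𝕂) → ℕ → ℕ → E,
      t = fun c m n => (c n * (a n : 𝕂)) • (T ^ (n + m)) x := ⟨_, rfl⟩
  have htu : ∀ (c : ℕ → 𝕂) (C : ℝ), (∀ n, ‖c n‖ ≤ C) → ∀ k : ℕ, C ≤ k + 1 → ∀ m ≤ B k,
      ∀ n, k < n → t c m n ∈ u n := by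
    intro c C hc k hk m hm n hn
    obtain ⟨j, rfl⟩ := Nat.exists_eq_add_of_lt hn
    rw [ht]
    refine hsmall (k + j) m (hm.trans (hB (by omega))) _ ((hc _).trans (hk.trans ?_))
    push_cast
    have : (0 : ℝ) ≤ j := Nat.cast_nonneg j
    linarith
  have hsum : ∀ (c : ℕ → 𝕂) (C : ℝ), (∀ n, ‖c n‖ ≤ C) → ∀ k : ℕ, C ≤ k + 1 → ∀ m ≤ B k,
      Summable (t c m) := by
    intro c C hc k hk m hm
    rw [summable_iff_vanishing]
    intro e he
    obtain ⟨N, -, hN⟩ := hub.1.mem_iff.1 he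
    refine ⟨Finset.range (max N k + 1), fun F hF => hN ?_⟩
    have hk' : C ≤ ((max N k : ℕ) : ℝ) + 1 := by
      refine hk.trans ?_
      gcongr
      exact le_max_right _ _
    have h1 := sum_mem u hu hadd (t c m) (max N k)
      (htu c C hc (max N k) hk' m (hm.trans (hB (le_max_right _ _)))) F (fun n hn => by
        by_contra h2
        exact (Finset.disjoint_left.1 hF hn) (Finset.mem_range.2 (by omega)))
    exact hanti (le_max_left _ _) h1
  have hsum0 : ∀ c : Bdd 𝕂, Summable (t c 0) := by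
    rintro ⟨c, C, hC⟩
    obtain ⟨k, hk⟩ := exists_nat_ge C
    exact hsum c C hC k (by linarith) 0 (Nat.zero_le _)
  obtain ⟨Ψ, hΨ⟩ : ∃ Ψ : Bdd 𝕂 →ₗ[𝕂] E, ∀ c, Ψ c = ∑' n, t c 0 n := by
    refine ⟨{ toFun := fun c => ∑' n, t c 0 n
              map_add' := fun c d => ?_
              map_smul' := fun r c => ?_ }, fun c => rfl⟩
    · rw [← (hsum0 c).tsum_add (hsum0 d)]
      congr 1
      funext n
      rw [ht]
      simp only [Submodule.coe_add, Pi.add_apply, add_mul, add_smul]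
    · simp only [RingHom.id_apply]
      rw [← (hsum0 c).tsum_const_smul]
      congr 1
      funext n
      rw [ht]
      simp only [Submodule.coe_smul, Pi.smul_apply, smul_eq_mul, mul_assoc, smul_smul]
  have hTm : ∀ (c : Bdd 𝕂) (m : ℕ), HasSum (t c m) ((T ^ m) (Ψ c)) := by
    intro c m
    have h1 : HasSum (t c 0) (Ψ c) := by rw [hΨ]; exact (hsum0 c).hasSum
    have h2 := h1.mapL (T ^ m)
    have h3 : (fun n => (T ^ m) (t c 0 n)) = t c m := by
      funext n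
      rw [ht]
      have h4 : (T ^ (n + m)) x = (T ^ m) ((T ^ (n + 0)) x) := by
        rw [add_zero, add_comm n m, pow_add]
        rfl
      simp only
      rw [map_smul, h4]
    rwa [h3] at h2
  refine ⟨Ψ, fun n => ?_, fun c hc0 => ?_⟩
  · refine ⟨⟨Pi.single n ((a n : 𝕂)⁻¹), ‖(a n : 𝕂)⁻¹‖, fun m => ?_⟩, ?_⟩
    · by_cases h : m = n
      · rw [h, Pi.single_eq_same]
      · rw [Pi.single_eq_of_ne h, norm_zero]
        exact norm_nonneg _
    · rw [hΨ, tsum_eq_single n]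
      · rw [ht]
        simp only [Pi.single_eq_same, add_zero]
        rw [inv_mul_cancel₀, one_smul]
        rw [Ne, RCLike.ofReal_eq_zero]
        exact (ha n).ne'
      · intro m hm
        rw [ht]
        simp only [Pi.single_eq_of_ne hm, zero_mul, zero_smul]
  -- density
  obtain ⟨C, hC⟩ := c.2
  obtain ⟨j0, hj0⟩ : ∃ j, (c : ℕ → 𝕂) j ≠ 0 := by
    by_contra h
    push Not at h
    exact hc0 (Subtype.ext (funext h))
  have hcl : ∀ n, closure (u (n + 1)) ⊆ u n := by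
    intro n w hw
    have h1 : {b : E | w - b ∈ u (n + 1)} ∈ 𝓝 w := by
      have h2 : Continuous fun b : E => w - b := by fun_prop
      refine h2.continuousAt.preimage_mem_nhds ?_
      rw [sub_self]
      exact hu _
    obtain ⟨b, hb1, hb2⟩ := mem_closure_iff_nhds.1 hw _ h1
    have h3 := hadd n (Set.add_mem_add hb1 hb2)
    rwa [sub_add_cancel] at h3
  intro w
  rw [mem_closure_iff_nhds]
  intro V hV
  obtain ⟨N, hN⟩ : ∃ N, ∀ v ∈ u N, w + v ∈ V := by
    have h1 : (fun v => w + v) ⁻¹' V ∈ 𝓝 (0 : E) := by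
      have h2 : Continuous fun v : E => w + v := by fun_prop
      refine h2.continuousAt.preimage_mem_nhds ?_
      rwa [add_zero]
    obtain ⟨N, -, hN⟩ := hub.1.mem_iff.1 h1
    exact ⟨N, hN⟩
  obtain ⟨j, hj⟩ : ∃ j : ℕ, (T ^ j) x - w ∈ u (N + 1) := by
    have h1 : (fun v => v - w) ⁻¹' (u (N + 1)) ∈ 𝓝 w := by
      have h2 : Continuous fun v : E => v - w := by fun_prop
      refine h2.continuousAt.preimage_mem_nhds ?_
      rw [sub_self]
      exact hu _
    obtain ⟨b, ⟨j, rfl⟩, hb⟩ := hx.inter_nhds_nonempty h1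
    exact ⟨j, hb⟩
  obtain ⟨l, hl⟩ := exists_nat_ge (max C (1 / ‖(c : ℕ → 𝕂) j0‖))
  obtain ⟨k, hk⟩ : ∃ k, k = Nat.pair j (max (N + 4) (max j0 l)) := ⟨_, rfl⟩
  have hk1 : max (N + 4) (max j0 l) ≤ k := by rw [hk]; exact Nat.right_le_pair _ _
  have hkN : N + 4 ≤ k := (le_max_left _ _).trans hk1
  have hkj : j0 ≤ k := (le_max_left _ _).trans ((le_max_right _ _).trans hk1)
  have hkl : l ≤ k := (le_max_right _ _).trans ((le_max_right _ _).trans hk1)
  have hkl' : (l : ℝ) ≤ k := by exact_mod_cast hkl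
  have hzk : z k = (T ^ j) x := by
    rw [hz, hk]
    simp only [Nat.unpair_pair]
  have hkC : C ≤ (k : ℝ) + 1 := by
    have := (le_max_left _ _).trans hl
    linarith
  have hc1 : 1 / ((k : ℝ) + 1) ≤ ‖fun i : Fin (k + 1) => (c : ℕ → 𝕂) i‖ := by
    have h1 : ‖(c : ℕ → 𝕂) j0‖ ≤ ‖fun i : Fin (k + 1) => (c : ℕ → 𝕂) i‖ :=
      norm_le_pi_norm (fun i : Fin (k + 1) => (c : ℕ → 𝕂) i) ⟨j0, by omega⟩
    refine le_trans ?_ h1
    have h2 : 1 / ‖(c : ℕ → 𝕂) j0‖ ≤ k + 1 := by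
      have := (le_max_right _ _).trans hl
      linarith
    have h3 : 0 < ‖(c : ℕ → 𝕂) j0‖ := norm_pos_iff.2 hj0
    rw [div_le_iff₀ (by positivity)]
    rw [div_le_iff₀ h3] at h2
    linarith
  have hc2 : ‖fun i : Fin (k + 1) => (c : ℕ → 𝕂) i‖ ≤ k + 1 := by
    rw [pi_norm_le_iff_of_nonneg (by positivity)]
    exact fun i => (hC i).trans hkC
  obtain ⟨m, hm, hmk⟩ := hhit k _ hc1 hc2
  rw [hzk] at hmk
  have hS : (∑ i : Fin (k + 1), ((c : ℕ → 𝕂) i * (a i : 𝕂)) • (T ^ ((i : ℕ) + m)) x) =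
      ∑ i ∈ Finset.range (k + 1), t c m i := by
    rw [ht, Finset.sum_range]
  rw [hS] at hmk
  have htail : (T ^ m) (Ψ c) - ∑ i ∈ Finset.range (k + 1), t c m i ∈ closure (u k) := by
    have h1 : Filter.Tendsto (fun F : Finset ℕ => ∑ n ∈ F, t c m n -
        ∑ i ∈ Finset.range (k + 1), t c m i) Filter.atTop
        (𝓝 ((T ^ m) (Ψ c) - ∑ i ∈ Finset.range (k + 1), t c m i)) :=
      Filter.Tendsto.sub (hTm c m) tendsto_const_nhds
    refine mem_closure_of_tendsto h1 ?_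
    rw [Filter.eventually_atTop]
    refine ⟨Finset.range (k + 1), fun F hF => ?_⟩
    rw [← Finset.sum_sdiff hF, add_sub_cancel_right]
    refine sum_mem u hu hadd _ k (htu c C hC k hkC m hm) _ fun n hn => ?_
    rw [Finset.mem_sdiff, Finset.mem_range] at hn
    omega
  refine ⟨(T ^ m) (Ψ c), ?_, m, rfl⟩
  have h1 : (T ^ m) (Ψ c) - ∑ i ∈ Finset.range (k + 1), t c m i ∈ u (N + 3) :=
    hcl (N + 3) (closure_mono (hanti hkN) htail)
  have h2 : (∑ i ∈ Finset.range (k + 1), t c m i) - (T ^ j) x ∈ u (N + 3) :=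
    hanti (by omega) hmk
  have h3 := hadd (N + 2) (Set.add_mem_add h1 h2)
  have h4 := hadd N (Set.add_mem_add (hanti (show N + 1 ≤ N + 2 by omega) h3) hj)
  have h5 := hN _ h4
  have h6 : w + ((T ^ m) (Ψ c) - ∑ i ∈ Finset.range (k + 1), t c m i +
      ((∑ i ∈ Finset.range (k + 1), t c m i) - (T ^ j) x) + ((T ^ j) x - w)) =
      (T ^ m) (Ψ c) := by abel
  rwa [h6] at h5

/-- The set of hypercyclic vectors is maximal dense-lineable. -/
theorem main (T : E →L[𝕂] E) (h : ∃ x : E, Dense (Set.range fun n : ℕ => (⇑T)^[n] x)) :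
    ∃ M : Submodule 𝕂 E, Dense (M : Set E) ∧
      (∀ x ∈ M, x ≠ 0 → Dense (Set.range fun n : ℕ => (⇑T)^[n] x)) ∧
      Module.rank 𝕂 M = Module.rank 𝕂 E := by
  obtain ⟨x, hx⟩ := h
  rcases subsingleton_or_nontrivial E with hE | hE
  · refine ⟨⊤, by simp, fun y _ hy => absurd (Subsingleton.elim y 0) hy, rank_top 𝕂 E⟩
  have hpow : ∀ (n : ℕ) (y : E), (T ^ n) y = (⇑T)^[n] y := by
    intro n
    induction n with
    | zero => intro y; rfl
    | succ n ih =>
      intro y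
      rw [pow_succ, Function.iterate_succ_apply, ← ih]
      rfl
  have hx' : Dense (Set.range fun n : ℕ => (T ^ n) x) := by
    simpa only [hpow] using hx
  obtain ⟨Ψ, h1, h2⟩ := construct T x hx'
  have hsep : TopologicalSpace.SeparableSpace E := ⟨_, Set.countable_range _, hx⟩
  have hinj : Function.Injective Ψ := by
    rw [injective_iff_map_eq_zero]
    intro c hc
    by_contra hc0
    have h3 := h2 c hc0
    rw [hc] at h3
    simp only [map_zero, Set.range_const] at h3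
    obtain ⟨y, hy⟩ := exists_ne (0 : E)
    have h4 := h3 y
    rw [closure_singleton] at h4
    exact hy h4
  refine ⟨LinearMap.range Ψ, ?_, ?_, ?_⟩
  · refine hx'.mono ?_
    rintro _ ⟨n, rfl⟩
    exact h1 n
  · rintro _ ⟨c, rfl⟩ hc
    have h3 := h2 c (fun h0 => hc (by rw [h0, map_zero]))
    simpa only [hpow] using h3
  · have h3 : Module.rank 𝕂 (LinearMap.range Ψ) = Module.rank 𝕂 (Bdd 𝕂) :=
      rank_range_of_injective Ψ hinj
    refine le_antisymm (Submodule.rank_le _) ?_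
    rw [h3]
    refine ((rank_le_card 𝕂 E).trans (card_le E)).trans (rank_bdd 𝕂)

end main

end Pool.Agent.V1167.DL
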